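import Pool.Agent.Y382.SquareInCube

/-!
# MP_befaea_co: the largest square in the unit cube of odd dimension `2n+1` has edge `√((8n+1)/8)`
-/

namespace Pool.Agent.Results.MP_befaea_co.LargestSquareOdd

/-- A congruent copy (isometric image) of `[0,s]^m` lies in the unit cube `[0,1]^n`. -/
def Inscribed (m n : ℕ) (s : ℝ) : Prop :=
  0 ≤ s ∧ ∃ φ : EuclideanSpace ℝ (Fin m) → EuclideanSpace ℝ (Fin n), Isometry φ ∧
    ∀ x, (∀ i, 0 ≤ x i ∧ x i ≤ s) → ∀ j, 0 ≤ φ x j ∧ φ x j ≤ 1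

/-- For every `n ≥ 1` the maximal `s` such that a congruent copy of `[0,s]^2` lies in
`[0,1]^(2n+1)` is `√((8n+1)/8)`. -/
theorem result (n : ℕ) (hn : 1 ≤ n) :
    IsGreatest {s : ℝ | Inscribed 2 (2 * n + 1) s} (√((8 * n + 1) / 8)) :=
  Pool.Agent.Y382.SquareInCube.main n hn

end Pool.Agent.Results.MP_befaea_co.LargestSquareOdd
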